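import Mathlib
import Pool.Agent.Y760.PZ.Vec
import Pool.Agent.TH456.TM.Inst

set_option autoImplicit false

/-!
MP_a89d6d_nt. `π` and zeta values at large arguments satisfy no polynomial relation of bounded degree with small
coefficients.

Let `r_1, ..., r_k ≥ 1` and `d` be integers. There are `ε > 0` and `B, C > 1` such that for all large `n` and all
distinct integers `s_1, ..., s_k` with `r_i n ≤ s_i ≤ (r_i + ε) n` (odd ones in particular) the value of every nonzero
integer polynomial of total degree at most `d` with coefficients at most `C ^ n` in absolute value at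
`(π, ζ(s_1), ..., ζ(s_k))` is larger than `B ^ (-n)` in absolute value.
-/

namespace Pool.Agent.Results.MP_a89d6d_nt.LargeArguments

open Finset Pool.Agent.Y760.PZ Pool.Agent.TH456.TM Pool.Agent.TH883.Zg

/-- the zeta value `ζ(s) = ∑ 1 / m ^ s` -/
noncomputable def zeta (s : ℕ) : ℝ := ∑' m : ℕ, 1 / ((m : ℝ) + 1) ^ s

/-- the point `(π, ζ(s_1), ..., ζ(s_k))`; the variable `none` stands for `π`, the variable `some i` for `ζ(s_i)` -/
noncomputable def point {k : ℕ} (s : Fin k → ℕ) : Option (Fin k) → ℝ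
  | none => Real.pi
  | some i => zeta (s i)

theorem result (k d : ℕ) (r : Fin k → ℕ) (hr : ∀ i, 1 ≤ r i) :
    ∃ ε B C : ℝ, 0 < ε ∧ 1 < B ∧ 1 < C ∧ ∃ n0 : ℕ, ∀ n : ℕ, n0 ≤ n → ∀ s : Fin k → ℕ,
      Function.Injective s → (∀ i, r i * n ≤ s i ∧ (s i : ℝ) ≤ (r i + ε) * n) →
      ∀ P : MvPolynomial (Option (Fin k)) ℤ, P ≠ 0 → P.totalDegree ≤ d →
      (∀ m, |((P.coeff m : ℤ) : ℝ)| ≤ C ^ n) →
      (B ^ n)⁻¹ < |MvPolynomial.aeval (point s) P| := by
  classical
  obtain ⟨ε, B, C, hε, hB, hC, n0, h⟩ := zeta_v (I := Fin k) (fun i : Fin (d + 1) => Real.pi ^ (i : ℕ))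
    (LM_pow measT_pi d) r hr d
  refine ⟨ε, B, C, hε, hB, hC, n0, fun n hn s hs hsr P hP hPd hPC => ?_⟩
  -- the exponents of `π` and of the zeta values
  set E := (Equiv.piOptionEquivProd (α := Fin k) (β := fun _ => Fin (d + 1))) with hE
  set a : (Fin k → Fin (d + 1)) → Fin (d + 1) → ℤ := fun e f => P.coeff (exq (E.symm (f, e))) with ha
  have ha0 : a ≠ 0 := by
    intro h0
    obtain ⟨m, hm⟩ := MvPolynomial.support_nonempty.2 hP
    obtain ⟨e, he⟩ := exq_surj hPd hm
    have h1 := congrFun (congrFun h0 (E e).2) (E e).1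
    have h2 : a (E e).2 (E e).1 = P.coeff (exq e) := by
      show P.coeff (exq (E.symm ((E e).1, (E e).2))) = _
      rw [Prod.mk.eta, Equiv.symm_apply_apply]
    rw [h2, he] at h1
    exact (MvPolynomial.mem_support_iff.1 hm) h1
  have h1 := h n hn s hs hsr a ha0 (fun e i => hPC _)
  have h2 : MvPolynomial.aeval (point s) P =
      ∑ e : Fin k → Fin (d + 1), (∑ i, (a e i : ℝ) * Real.pi ^ (i : ℕ)) *
        ∏ i, (∑' m : ℕ, 1 / ((m : ℝ) + 1) ^ (s i)) ^ ((e i : Fin (d + 1)) : ℕ) := by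
    rw [eval_exq' hPd]
    rw [← Equiv.sum_comp E.symm, Fintype.sum_prod_type_right]
    refine sum_congr rfl fun e _ => ?_
    rw [sum_mul]
    refine sum_congr rfl fun f _ => ?_
    rw [Fintype.prod_option]
    simp only [ha, point, zeta]
    rw [mul_assoc]
    rfl
  rw [h2]
  exact h1

end Pool.Agent.Results.MP_a89d6d_nt.LargeArguments
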