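import Mathlib
import Pool.Agent.Q217.ZO.Lower

/-!
# Algebraic independence of `π, ζ(3), ζ(5), …`: the number of missing dimensions

Let `x_0 = π`, `x_k = ζ(2k+1)` for `k ≥ 1`, let `x_k` have weight `2k+1`, let `M(N)` be the number of
monomials of weight at most `N` and `D(N)` the dimension of their rational span. We say that `t`
dimensions are missing if for some `n` the transcendence degree of `ℚ(x_0, …, x_n)` is at most
`n + 1 - t`. Then (Q1 is true if and only if no dimension is missing, and)

* if `t` dimensions are missing, `D(N) ≤ C (log N / √N)^t M(N)`;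
* if `t + 1` dimensions are not missing, `M(N) ≤ C (√N)^t D(N)`;
* so if exactly `t` dimensions are missing, `log (M(N)/D(N)) / log N → t/2`, and this quotient tends
  to infinity if infinitely many dimensions are missing.
-/

set_option autoImplicit false

open Filter Topology

namespace Pool.Agent.Results.MP_a89d6d_nt.MissingDimensions

/-- the numbers `π, ζ(3), ζ(5), ζ(7), …` -/
noncomputable def x (k : ℕ) : ℝ :=
  if k = 0 then Real.pi else ∑' n : ℕ, 1 / ((n : ℝ) + 1) ^ (2 * k + 1)

/-- the weight of the monomial with exponent vector `a`: the sum of the `a_k (2 k + 1)` -/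
def weight (a : ℕ →₀ ℕ) : ℕ := a.sum fun k m => m * (2 * k + 1)

/-- the monomial with exponent vector `a`: the product of the `x_k ^ a_k` -/
noncomputable def mon (a : ℕ →₀ ℕ) : ℝ := a.prod fun k m => x k ^ m

/-- the number of monomials of weight at most `N` -/
noncomputable def M (N : ℕ) : ℕ := {a : ℕ →₀ ℕ | weight a ≤ N}.ncard

/-- the dimension over `ℚ` of the span of the monomials of weight at most `N` -/
noncomputable def D (N : ℕ) : ℕ :=
  Module.finrank ℚ (Submodule.span ℚ (mon '' {a : ℕ →₀ ℕ | weight a ≤ N}))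

/-- `t` dimensions are missing: for some `n` the algebraically independent subfamilies of
`x_0, …, x_n` have at most `n + 1 - t` members -/
def Missing (t : ℕ) : Prop :=
  ∃ n : ℕ, ∀ J : Finset ℕ, J ⊆ Finset.range (n + 1) →
    AlgebraicIndependent ℚ (fun j : J => x j) → J.card + t ≤ n + 1

open Pool.Agent.Q217

theorem set_eq (N : ℕ) : {a : ℕ →₀ ℕ | weight a ≤ N} = (ZO.mons N : Set ZO.Mon) := by
  ext a
  rw [Finset.mem_coe, ZO.mem_mons]
  rfl

theorem M_eq (N : ℕ) : M N = (ZO.mons N).card := by
  unfold M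
  rw [set_eq, Set.ncard_coe_finset]

theorem D_eq (N : ℕ) : D N = ZO.dim x N := by
  unfold D
  rw [set_eq]
  rfl

theorem missing_iff (t : ℕ) : Missing t ↔ ZO.Missing x t := Iff.rfl

/-- **Theorem.**
(1) The numbers `π, ζ(3), ζ(5), …` are algebraically independent if and only if `D(N) = M(N)` for all
`N`, and if and only if no dimension is missing.
(2) If `t` dimensions are missing, then `D(N) ≤ C (log N / √N)^t M(N)` for all `N ≥ 2`.
(3) If `t + 1` dimensions are not missing, then `M(N) ≤ C (√N)^t D(N)` for all `N ≥ 1`.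
(4) If `t` but not `t + 1` dimensions are missing, then `log (M(N)/D(N)) / log N → t/2`.
(5) If `t` dimensions are missing for every `t`, then this quotient tends to infinity. -/
theorem result :
    (AlgebraicIndependent ℚ x ↔ ∀ N, D N = M N) ∧
    (AlgebraicIndependent ℚ x ↔ ¬ Missing 1) ∧
    (∀ t : ℕ, Missing t → ∃ C : ℝ, 0 < C ∧ ∀ N : ℕ, 2 ≤ N →
      (D N : ℝ) ≤ C * (Real.log N / √(N : ℝ)) ^ t * M N) ∧
    (∀ t : ℕ, ¬ Missing (t + 1) → ∃ C : ℝ, 0 < C ∧ ∀ N : ℕ, 1 ≤ N →
      (M N : ℝ) ≤ C * √(N : ℝ) ^ t * D N) ∧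
    (∀ t : ℕ, Missing t → ¬ Missing (t + 1) →
      Tendsto (fun N : ℕ => Real.log ((M N : ℝ) / D N) / Real.log N) atTop (𝓝 ((t : ℝ) / 2))) ∧
    ((∀ t : ℕ, Missing t) →
      Tendsto (fun N : ℕ => Real.log ((M N : ℝ) / D N) / Real.log N) atTop atTop) := by
  simp only [M_eq, D_eq, missing_iff]
  refine ⟨ZO.indep_iff, ⟨fun h => ZO.not_missing h 1 le_rfl, fun h => ?_⟩,
    fun t ht => ZO.upper_real ht, fun t ht => ZO.lower_real ht,
    fun t h h' => ZO.tendsto_exponent h h', fun h => ZO.tendsto_exponent_atTop h⟩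
  by_contra hn
  exact h (ZO.missing_one hn)

end Pool.Agent.Results.MP_a89d6d_nt.MissingDimensions
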