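import Mathlib
import Pool.Agent.Q29.SpaceSpan
import Pool.Agent.TH21.PD75.Fin
import Pool.Agent.Dim7.PD.Fin
import Pool.Agent.Dim7.PD.PU
import Pool.Agent.Dim7.PD.AR
import Pool.Agent.Dim7.PD.NV
import Pool.Agent.Dim7.PD.SV
import Pool.Agent.Dim7.PD.RH
import Pool.Agent.Dim7.PD.FX

/-!
# The rank of the near relations between odd zeta values and arbitrary numbers: codimension three and four

For all real numbers `t_1, …, t_r` (for instance other odd zeta values, or monomials in `π` and the odd zeta values) the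
integer vectors of norm at most `X` on which the linear form
`a_0 + a_1 ζ(3) + a_2 ζ(5) + … + a_37 ζ(75) + e_1 t_1 + … + e_r t_r` is smaller than `c X ^ (-6181 (r + 35))` span a space of
dimension at most `r + 34`, that is, of codimension at least four in `ℚ ^ (38 + r)`, at every scale `X` and with `c`
independent of `t_1, …, t_r`. So for every finite set of monomials in `π` and the odd zeta values which contains
`1, ζ(3), …, ζ(75)`, the integer polynomials with these monomials, with coefficients bounded by `X` and with very small values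
span a space of codimension at least four. If the set contains `1, ζ(3), ζ(5), ζ(7)` only, the codimension is at least three,
with the exponent `1071 (r + 2)`.

The proof is an elimination in one step (`Pool/Agent/Q29/SpaceRank.lean`: a maximal minor whose columns are chosen first among
the columns of the `t_j`, then among those of the zeta values, and the column of `1` only if necessary) and the lower bounds
for the distance of `(1, ζ(3), …, ζ(75))` to rational subspaces of dimension three and of `(1, ζ(3), ζ(5), ζ(7))` to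
rational planes of the starting files, see `Pool/Agent/Results/MP_a89d6d_nt/SpaceDistanceZeta75.lean` and
`Pool/Agent/Results/MP_c2395a_nt/PlaneDistanceZeta7.lean`.
-/

set_option autoImplicit false

namespace Pool.Agent.Results.MP_a89d6d_nt.RankOfOddZetaRelations

open Pool.Agent.Q29.SpaceRank

/-- `ζ(i)` -/
noncomputable def zeta (i : ℕ) : ℝ := ∑' n : ℕ, 1 / ((n : ℝ) + 1) ^ i

/-- the value of the form `a_0 + a_1 ζ(3) + … + a_p ζ(2 p + 1) + e_1 t_1 + … + e_r t_r` for `v = (a, e)` -/
noncomputable def form {p r : ℕ} (t : Fin r → ℝ) (v : (Fin (p + 1) → ℤ) × (Fin r → ℤ)) : ℝ :=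
  v.1 0 + ∑ i : Fin p, v.1 i.succ * zeta (2 * i + 3) + ∑ j, (v.2 j : ℝ) * t j

/-- There is `c > 0` such that for all real `t_1, …, t_r` and all `X ≥ 1`: of `m` linearly independent integer vectors of
norm at most `X` one has a form of absolute value at least `c X ^ (-E)`; and the integer vectors of norm at most `X` with a
smaller value of the form span a rational vector space of dimension less than `m`. -/
def RankBound (p r m E : ℕ) : Prop :=
  ∃ c : ℝ, 0 < c ∧ ∀ (t : Fin r → ℝ) (X : ℝ), 1 ≤ X →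
    (∀ v : Fin m → (Fin (p + 1) → ℤ) × (Fin r → ℤ), LinearIndependent ℤ v → (∀ k, ‖v k‖ ≤ X) →
      ∃ k, c / X ^ E ≤ |form t (v k)|) ∧
    Module.finrank ℚ (Submodule.span ℚ ((fun (v : (Fin (p + 1) → ℤ) × (Fin r → ℤ)) =>
      (((fun i => (v.1 i : ℚ)), (fun j => (v.2 j : ℚ))) : (Fin (p + 1) → ℚ) × (Fin r → ℚ))) ''
        {v | ‖v‖ ≤ X ∧ |form t v| < c / X ^ E})) < m

/-- the distance to rational subspaces of dimension three -/
theorem space : ∃ c : ℝ, 0 < c ∧ SpaceDist (fun i : Fin 37 => zeta (2 * i + 3)) 2 6180 c := by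
  obtain ⟨c, hc, h⟩ := Pool.Agent.TH21.PD75.main
  refine ⟨c, hc, fun q a B θ H hq hqH hB => ?_⟩
  obtain ⟨g, hg⟩ : ∃ g : ℕ → Fin 37, g = fun n => ⟨min ((n - 3) / 2) 36, by omega⟩ := ⟨_, rfl⟩
  obtain ⟨i, hi, hle⟩ := h q (fun n => a (g n)) (fun n => B 0 (g n)) (fun n => B 1 (g n)) (θ 0) (θ 1) H hq hqH
    (fun i _ => hB _ _) (fun i _ => hB _ _)
  rw [Pool.Agent.TH21.PD75.mem_I37] at hi
  refine ⟨g i, ?_⟩
  have e1 : 2 * ((g i : Fin 37) : ℕ) + 3 = i := by
    obtain ⟨⟨h3, h75⟩, hodd⟩ := hi
    obtain ⟨k, hk⟩ := hodd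
    rw [hg]
    show 2 * (min ((i - 3) / 2) 36) + 3 = i
    omega
  show c / H ^ 6180 ≤ |zeta (2 * ((g i : Fin 37) : ℕ) + 3) - _|
  rw [e1, Fin.sum_univ_two]
  refine hle.trans (le_of_eq ?_)
  congr 2
  show _ = (_ : ℝ) / _
  congr 1
  ring

/-- the distance to rational planes -/
theorem plane : ∃ c : ℝ, 0 < c ∧ SpaceDist (fun i : Fin 3 => zeta (2 * i + 3)) 1 1070 c := by
  obtain ⟨c, hc, h⟩ := Pool.Agent.Dim7.PD.main_of Pool.Agent.Dim7.PD.P_unif
    (Pool.Agent.Dim7.PD.AR_of Pool.Agent.Dim7.PD.FN_in Pool.Agent.Dim7.PD.rho_le' Pool.Agent.Dim7.PD.BL_le'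
      Pool.Agent.Dim7.PD.sv_add' Pool.Agent.Dim7.PD.sv_entry') Pool.Agent.Dim7.PD.nonv
  refine ⟨c, hc, fun q a B θ H hq hqH hB => ?_⟩
  obtain ⟨i, hi, hle⟩ := h q (fun n => a (if n = 3 then 0 else if n = 5 then 1 else 2))
    (fun n => B 0 (if n = 3 then 0 else if n = 5 then 1 else 2)) (θ 0) H hq hqH (fun i _ => hB _ _)
  simp only [Finset.mem_insert, Finset.mem_singleton] at hi
  rcases hi with rfl | rfl | rfl
  · refine ⟨0, ?_⟩
    rw [Fin.sum_univ_one]
    exact hle
  · refine ⟨1, ?_⟩
    rw [Fin.sum_univ_one]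
    exact hle
  · refine ⟨2, ?_⟩
    rw [Fin.sum_univ_one]
    exact hle

/-- from the distance to rational subspaces to the rank bound -/
theorem bound_of_dist (p D κ r : ℕ) (h : ∃ c : ℝ, 0 < c ∧ SpaceDist (fun i : Fin p => zeta (2 * i + 3)) D κ c) (m : ℕ)
    (hm : m + D = r + p) : RankBound p r m ((κ + 1) * m) := by
  obtain ⟨c, hc, h⟩ := h
  obtain ⟨-, c', hc', h'⟩ := near_rank _ D κ c hc h r
  refine ⟨c', hc', fun t X hX => ?_⟩
  obtain ⟨h1, h2⟩ := h' t X hX
  exact ⟨fun v hv hvX => h1 m hm v hv hvX, h2 m hm⟩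

/-- **The rank of the near relations between odd zeta values and arbitrary numbers.** -/
theorem result (r : ℕ) :
    RankBound 3 r (r + 2) (1071 * (r + 2)) ∧ RankBound 37 r (r + 35) (6181 * (r + 35)) :=
  ⟨bound_of_dist 3 1 1070 r plane (r + 2) (by ring), bound_of_dist 37 2 6180 r space (r + 35) (by ring)⟩

end Pool.Agent.Results.MP_a89d6d_nt.RankOfOddZetaRelations
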