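import Mathlib
import Pool.Agent.Q217.MZ.Fam

/-!
# MP_a89d6d_nt: `ζ(3)`, `ζ(5)`, `π ^ 2` and zeta values at large arguments

Let `θ_1, ..., θ_l` be real numbers with a measure of linear independence over `ℚ`, for instance `1, ζ(5)`, or
`1, ζ(2), ζ(3)`, or `1, ζ(3), ζ(4)`. Then there is no relation

`θ_1 P_1(ζ(s_1), ..., ζ(s_k)) + ... + θ_l P_l(ζ(s_1), ..., ζ(s_k)) = 0`

with integer polynomials `P_j`, not all zero, of bounded degree and with coefficients at most `C ^ n`, and distinct large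
integers `s_i` with `r_i n ≤ s_i ≤ (r_i + ε) n` (for example odd ones); the left side is larger than `B ^ (-n)`.

The starting library has the estimate for values of Dirichlet series at such arguments (`Pool.Agent.Y760.PZ.zeta_v`) and
the measures: `Pool.Agent.LM.measure_d` (`1, ζ(2), ζ(3)`), `Pool.Agent.ZF.Mea.pi_all` (`1, ζ(3), π ^ 4`),
`Pool.Agent.Y801.Z5S.measure83` (`ζ(5)`).
-/

set_option autoImplicit false

namespace Pool.Agent.Results.MP_a89d6d_nt.SmallAndLargeArguments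

open Finset Pool.Agent.Y760.PZ Pool.Agent.TH456.TM Pool.Agent.TH883.Zg

/-- the zeta value `ζ(s) = ∑ 1 / m ^ s` -/
noncomputable def zeta (s : ℕ) : ℝ := ∑' m : ℕ, 1 / ((m : ℝ) + 1) ^ s

/-- `θ_1, ..., θ_l` have a (polynomial) measure of linear independence over `ℚ` -/
def HasMeasure {l : ℕ} (θ : Fin l → ℝ) : Prop :=
  ∃ κ c : ℝ, 0 < c ∧ ∀ q : Fin l → ℤ, q ≠ 0 → ∀ H : ℝ, 1 ≤ H → (∀ i, |(q i : ℝ)| ≤ H) →
    c * H ^ (-κ) ≤ |∑ i, (q i : ℝ) * θ i|

/-- For all `k, d ≥ 0` and `r_1, ..., r_k ≥ 1` there are `ε > 0` and `B, C > 1` such that for all large `n` and all distinct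
integers `s_i` with `r_i n ≤ s_i ≤ (r_i + ε) n`: integer polynomials `P_1, ..., P_l` in `k` variables, not all zero, of
degree at most `d` and with coefficients of absolute value at most `C ^ n`, satisfy
`|∑ θ_j P_j(ζ(s_1), ..., ζ(s_k))| > B ^ (-n)`. -/
def NoSmallRelations {l : ℕ} (θ : Fin l → ℝ) : Prop :=
  ∀ (k d : ℕ) (r : Fin k → ℕ), (∀ i, 1 ≤ r i) →
    ∃ ε B C : ℝ, 0 < ε ∧ 1 < B ∧ 1 < C ∧ ∃ n0 : ℕ, ∀ n : ℕ, n0 ≤ n → ∀ s : Fin k → ℕ,
      Function.Injective s → (∀ i, r i * n ≤ s i ∧ (s i : ℝ) ≤ (r i + ε) * n) →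
      ∀ P : Fin l → MvPolynomial (Fin k) ℤ, P ≠ 0 → (∀ j, (P j).totalDegree ≤ d) →
      (∀ j m, |(((P j).coeff m : ℤ) : ℝ)| ≤ C ^ n) →
      (B ^ n)⁻¹ < |∑ j, θ j * MvPolynomial.aeval (fun i => zeta (s i)) (P j)|

lemma zeta_eq (s : ℕ) : zeta s = Pool.Agent.H337R2.zr s := by
  rw [zeta, Pool.Agent.H337R2.zr]

theorem main {l : ℕ} (θ : Fin l → ℝ) (hθ : LM θ) : NoSmallRelations θ := by
  classical
  intro k d r hr
  obtain ⟨ε, B, C, hε, hB, hC, n0, h⟩ := zeta_v (I := Fin k) θ hθ r hr d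
  refine ⟨ε, B, C, hε, hB, hC, n0, fun n hn s hs hsr P hP hPd hPC => ?_⟩
  set a : (Fin k → Fin (d + 1)) → Fin l → ℤ := fun e j => (P j).coeff (exq e) with ha
  have ha0 : a ≠ 0 := by
    intro h0
    apply hP
    funext j
    by_contra hj
    obtain ⟨m, hm⟩ := MvPolynomial.support_nonempty.2 hj
    obtain ⟨e, he⟩ := exq_surj (hPd j) hm
    have h1 : (P j).coeff (exq e) = 0 := congrFun (congrFun h0 e) j
    rw [he] at h1
    exact (MvPolynomial.mem_support_iff.1 hm) h1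
  have h1 := h n hn s hs hsr a ha0 (fun e i => hPC _ _)
  have h2 : ∑ j, θ j * MvPolynomial.aeval (fun i => zeta (s i)) (P j) =
      ∑ e : Fin k → Fin (d + 1), (∑ j, (a e j : ℝ) * θ j) *
        ∏ i, (∑' m : ℕ, 1 / ((m : ℝ) + 1) ^ (s i)) ^ ((e i : Fin (d + 1)) : ℕ) := by
    have h3 : ∀ j ∈ (univ : Finset (Fin l)), θ j * MvPolynomial.aeval (fun i => zeta (s i)) (P j) =
        ∑ e : Fin k → Fin (d + 1), ((a e j : ℝ) * θ j) *
          ∏ i, (∑' m : ℕ, 1 / ((m : ℝ) + 1) ^ (s i)) ^ ((e i : Fin (d + 1)) : ℕ) := by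
      intro j _
      rw [eval_exq' (hPd j), mul_sum]
      refine sum_congr rfl fun e _ => ?_
      simp only [ha, zeta]
      ring
    rw [sum_congr rfl h3, sum_comm]
    refine sum_congr rfl fun e _ => ?_
    rw [sum_mul]
  rw [h2]
  exact h1

/-- **Theorem.** Real numbers with a measure of linear independence satisfy no relation with the zeta values at large
arguments, of bounded degree in the latter and with small coefficients, in the sense of `NoSmallRelations`. This applies to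
`1, ζ(5)`, to `1, ζ(2), ζ(3)` and to `1, ζ(3), ζ(4)`. -/
theorem result :
    (∀ (l : ℕ) (θ : Fin l → ℝ), HasMeasure θ → NoSmallRelations θ) ∧
    NoSmallRelations ![1, zeta 5] ∧
    NoSmallRelations ![1, zeta 2, zeta 3] ∧
    NoSmallRelations ![1, zeta 3, zeta 4] := by
  refine ⟨fun l θ hθ => main θ ?_, main _ ?_, main _ ?_, main _ ?_⟩
  · obtain ⟨κ, c, hc, h⟩ := hθ
    refine ⟨max κ 0, c, le_max_right _ _, hc, fun q hq H hH hb => ?_⟩
    have hH0 : 0 < H := by linarith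
    have h1 := h q hq H hH hb
    rw [Real.rpow_neg hH0.le, ← div_eq_mul_inv, div_le_iff₀ (Real.rpow_pos_of_pos hH0 κ)] at h1
    calc c ≤ |∑ i, (q i : ℝ) * θ i| * H ^ κ := h1
      _ = H ^ κ * |∑ i, (q i : ℝ) * θ i| := mul_comm _ _
      _ ≤ _ := by
        gcongr
        exact le_max_left _ _
  · rw [zeta_eq]
    exact Pool.Agent.Q217.MZ.LM_zeta5
  · rw [zeta_eq, zeta_eq]
    exact Pool.Agent.Q217.MZ.LM_zeta23
  · rw [zeta_eq, zeta_eq]
    refine Pool.Agent.Q217.MZ.LM_scale Pool.Agent.Q217.MZ.LM_zeta34 ![1, 1, 1] ![1, 1, 90] ?_ ?_ ?_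
    · intro i; fin_cases i <;> decide
    · intro i; fin_cases i <;> decide
    · intro i
      fin_cases i
      · simp
      · simp
      · show Pool.Agent.H337R2.zr 4 = Real.pi ^ 4 * ((1 : ℕ) : ℝ) / ((90 : ℕ) : ℝ)
        rw [Pool.Agent.ZF.Mea.zr4_eq]
        push_cast
        ring

end Pool.Agent.Results.MP_a89d6d_nt.SmallAndLargeArguments
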